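import Mathlib
import Pool.Agent.K9h65.TU.Main

/-!
# Tube occupancy with a logarithmic loss only

For every `d ≥ 2` and every function `φ` tending to infinity there is one compact set `K ⊆ ℝ^d` with
`0 < H^{d-1}(K) < ∞` such that for all tubes `T` of width `w ≤ 1 / 2`
`H^{d-1}(K ∩ T) ≤ C w^{d-1} (log (1/w) / log (1 + log (1/w))) φ(1/w)`, and
`H^{d-1}(K ∩ T) ≤ C w^{d-1} log (1/w)`. In particular `K` satisfies the `s`-tube bound for every
`s < d - 1` at once.

The existence of a set with the `s`-tube bound for every `s < d - 1` at once is, as far as I recall, a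
theorem of Changhao Chen (Distribution of random Cantor sets on tubes, Ark. Mat. 54 (2016)), which
answers a question of Orponen. The logarithmic gauge is new to my knowledge.

Construction: `K` is the limit of graphs over the unit cube of `ℝ^{d-1}`. In the step `n` each cell is
divided in `N^d` cells, `N = 2 ^ (2 * 4 ^ j)`, `j = j_n`, and one cell of each column is chosen at random. With
exponential moments to the base `2 ^ j` for thin tubes and to the base `2` for wide tubes, and a union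
bound, there is a choice for which every tube of relative width `r` meets at most
`C ((r N)^{d-1} + 1) 4^j / j` and, if `r N ≥ √N`, at most `C (r N)^{d-1}` of the chosen cells. The numbers
`j_n` grow so rapidly that the product of the bounds of the earlier steps is at most `φ`.

The files `Pool/Agent/K9h65/TU` are a modification of the files `Pool/Agent/K9h79/Tube` of helper79.
-/

namespace Pool.Agent.Results.MP_e5cefd_an.LogarithmicGauge

open MeasureTheory Filter Topology
open scoped ENNReal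

/-- A line in `ℝ^d`. -/
def IsLine {d : ℕ} (l : Set (EuclideanSpace ℝ (Fin d))) : Prop :=
  ∃ p v : EuclideanSpace ℝ (Fin d), v ≠ 0 ∧ l = {y | ∃ t : ℝ, y = p + t • v}

/-- The tube of width `w` around the line `l`: all points at distance at most `w / 2` from `l`. -/
def tube {d : ℕ} (l : Set (EuclideanSpace ℝ (Fin d))) (w : ℝ) :
    Set (EuclideanSpace ℝ (Fin d)) :=
  {x | Metric.infDist x l ≤ w / 2}

lemma tube_subset {m : ℕ} {l : Set (EuclideanSpace ℝ (Fin (m + 1)))}
    {p v : EuclideanSpace ℝ (Fin (m + 1))} (hl : l = {y | ∃ t : ℝ, y = p + t • v}) {w : ℝ}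
    (hw : 0 < w) : tube l w ⊆ Pool.Agent.K9h65.TU.Nbhd p v w := by
  intro x hx
  have hne : l.Nonempty := ⟨p, by rw [hl]; exact ⟨0, by simp⟩⟩
  have h1 : Metric.infDist x l < w := lt_of_le_of_lt hx (by linarith)
  obtain ⟨y, hy, hxy⟩ := (Metric.infDist_lt_iff hne).mp h1
  rw [hl] at hy
  obtain ⟨t, rfl⟩ := hy
  exact ⟨t, hxy.le⟩

/-- the function to which the construction is applied -/
noncomputable def psi (φ : ℝ → ℝ) (x : ℝ) : ℝ := min (φ x) (1 + Real.log (1 + Real.log (1 + |x|)))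

lemma log_abs_nonneg (x : ℝ) : 0 ≤ Real.log (1 + |x|) :=
  Real.log_nonneg (by linarith [abs_nonneg x])

lemma one_le_psi {φ : ℝ → ℝ} (hφ1 : ∀ x, 1 ≤ φ x) (x : ℝ) : 1 ≤ psi φ x := by
  refine le_min (hφ1 x) ?_
  have := Real.log_nonneg (show (1 : ℝ) ≤ 1 + Real.log (1 + |x|) by linarith [log_abs_nonneg x])
  linarith

lemma tendsto_psi {φ : ℝ → ℝ} (hφ : Tendsto φ atTop atTop) : Tendsto (psi φ) atTop atTop := by
  have h1 : Tendsto (fun x : ℝ => 1 + |x|) atTop atTop :=
    tendsto_atTop_add_const_left _ _ tendsto_abs_atTop_atTop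
  have h2 : Tendsto (fun x : ℝ => 1 + Real.log (1 + |x|)) atTop atTop :=
    tendsto_atTop_add_const_left _ _ (Real.tendsto_log_atTop.comp h1)
  have h3 : Tendsto (fun x : ℝ => 1 + Real.log (1 + Real.log (1 + |x|))) atTop atTop :=
    tendsto_atTop_add_const_left _ _ (Real.tendsto_log_atTop.comp h2)
  refine tendsto_atTop.2 fun b => ?_
  filter_upwards [tendsto_atTop.1 hφ b, tendsto_atTop.1 h3 b] with x hx1 hx2
  exact le_min hx1 hx2

lemma psi_le {φ : ℝ → ℝ} {w : ℝ} (hw0 : 0 < w) (hw : w ≤ 1 / 2) :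
    psi φ (1 / w) ≤ 6 * Real.log (1 + Real.log (1 / w)) := by
  have h2 : Real.log 2 ≤ Real.log (1 / w) := by
    apply Real.log_le_log (by norm_num)
    rw [le_div_iff₀ hw0]
    linarith
  have hl2 := Real.log_two_gt_d9
  have hl2' := Real.log_two_lt_d9
  set lam := Real.log (1 / w) with hlam
  have hlam0 : 0 < lam := by linarith
  have h3 : Real.log (1 + |1 / w|) ≤ 2 * lam := by
    rw [abs_of_pos (by positivity)]
    calc Real.log (1 + 1 / w) ≤ Real.log (1 / w * (1 / w)) := by
          apply Real.log_le_log (by positivity)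
          have : (2 : ℝ) ≤ 1 / w := by
            rw [le_div_iff₀ hw0]
            linarith
          nlinarith
      _ = 2 * lam := by
          rw [Real.log_mul (by positivity) (by positivity)]
          ring
  have h4 : Real.log (1 + Real.log (1 + |1 / w|)) ≤ Real.log 2 + Real.log (1 + lam) := by
    rw [← Real.log_mul (by norm_num) (by positivity)]
    apply Real.log_le_log (by linarith [log_abs_nonneg (1 / w)])
    linarith
  have h5 : (2 : ℝ) / 5 ≤ Real.log (1 + lam) := by
    have h6 := Real.one_sub_inv_le_log_of_pos (show 0 < 1 + lam by linarith)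
    have h7 : (1 + lam)⁻¹ ≤ 3 / 5 := by
      rw [inv_le_comm₀ (by linarith) (by norm_num)]
      norm_num
      linarith
    linarith
  refine (min_le_right _ _).trans ?_
  linarith

/-- Let `d ≥ 2` and let `φ ≥ 1` be a function which tends to infinity. There is a compact
`K ⊆ ℝ^d` with `0 < H^{d-1}(K) < ∞` and

1. `H^{d-1}(K ∩ T) ≤ C w^{d-1} (log (1/w) / log (1 + log (1/w))) φ(1/w)` for all tubes `T` of width
`w ≤ 1/2`;
2. `H^{d-1}(K ∩ T) ≤ C w^{d-1} log (1/w)` for all tubes `T` of width `w ≤ 1/2`;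
3. for every real `s < d - 1` there is a constant `C` with `H^{d-1}(K ∩ T) ≤ C w^s` for all tubes `T`
of width `w` (if `s < 0`, for all tubes of width at most one). -/
theorem result (d : ℕ) (hd : 2 ≤ d) (φ : ℝ → ℝ) (hφ1 : ∀ x, 1 ≤ φ x)
    (hφ : Tendsto φ atTop atTop) :
    ∃ K : Set (EuclideanSpace ℝ (Fin d)), IsCompact K ∧
      0 < μH[(d : ℝ) - 1] K ∧ μH[(d : ℝ) - 1] K < ∞ ∧
      (∃ C : ℝ, ∀ (l : Set (EuclideanSpace ℝ (Fin d))) (w : ℝ), IsLine l → 0 < w → w ≤ 1 / 2 →
        μH[(d : ℝ) - 1] (K ∩ tube l w) ≤ ENNReal.ofReal (C * (w ^ (d - 1) *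
          (Real.log (1 / w) / Real.log (1 + Real.log (1 / w))) * φ (1 / w)))) ∧
      (∃ C : ℝ, ∀ (l : Set (EuclideanSpace ℝ (Fin d))) (w : ℝ), IsLine l → 0 < w → w ≤ 1 / 2 →
        μH[(d : ℝ) - 1] (K ∩ tube l w) ≤ ENNReal.ofReal (C * (w ^ (d - 1) * Real.log (1 / w)))) ∧
      ∀ s : ℝ, s < (d : ℝ) - 1 → ∃ C : ℝ, ∀ (l : Set (EuclideanSpace ℝ (Fin d))) (w : ℝ),
        IsLine l → 0 < w → (w ≤ 1 ∨ 0 ≤ s) →
          μH[(d : ℝ) - 1] (K ∩ tube l w) ≤ ENNReal.ofReal (C * w ^ s) := by
  obtain ⟨m, rfl⟩ : ∃ m, d = m + 1 := ⟨d - 1, by omega⟩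
  have hcast : (((m + 1 : ℕ) : ℝ) - 1) = (m : ℝ) := by push_cast; ring
  rw [hcast, Nat.add_sub_cancel]
  obtain ⟨S, C, hC, H⟩ := Pool.Agent.K9h65.TU.main_bound m (by omega) (psi φ) (one_le_psi hφ1)
    (tendsto_psi hφ)
  have H1 : ∀ (l : Set (EuclideanSpace ℝ (Fin (m + 1)))) (w : ℝ), IsLine l → 0 < w → w ≤ 1 / 2 →
      μH[(m : ℝ)] (Pool.Agent.K9h65.TU.K m ∩ tube l w) ≤ ENNReal.ofReal (C * (w ^ m *
        (Real.log (1 / w) / Real.log (1 + Real.log (1 / w))) * psi φ (1 / w))) := by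
    rintro l w ⟨p, v, _, hlv⟩ hw0 hw
    exact (measure_mono (Set.inter_subset_inter_right _ (tube_subset hlv hw0))).trans
      (H p v w hw0 hw)
  have H2 : ∀ (l : Set (EuclideanSpace ℝ (Fin (m + 1)))) (w : ℝ), IsLine l → 0 < w → w ≤ 1 / 2 →
      μH[(m : ℝ)] (Pool.Agent.K9h65.TU.K m ∩ tube l w) ≤
        ENNReal.ofReal (6 * C * (w ^ m * Real.log (1 / w))) := by
    intro l w hl hw0 hw
    refine (H1 l w hl hw0 hw).trans (ENNReal.ofReal_le_ofReal ?_)
    have hlog := Pool.Agent.K9h65.TU.log_pos_of hw0 hw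
    have hll : 0 < Real.log (1 + Real.log (1 / w)) := Real.log_pos (by linarith)
    have h1 := psi_le (φ := φ) hw0 hw
    have h2 : 0 ≤ w ^ m * (Real.log (1 / w) / Real.log (1 + Real.log (1 / w))) := by positivity
    calc C * (w ^ m * (Real.log (1 / w) / Real.log (1 + Real.log (1 / w))) * psi φ (1 / w))
        ≤ C * (w ^ m * (Real.log (1 / w) / Real.log (1 + Real.log (1 / w))) *
            (6 * Real.log (1 + Real.log (1 / w)))) :=
          mul_le_mul_of_nonneg_left (mul_le_mul_of_nonneg_left h1 h2) hC.le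
      _ = 6 * C * (w ^ m * Real.log (1 / w)) := by
          field_simp
  refine ⟨Pool.Agent.K9h65.TU.K m, Pool.Agent.K9h65.TU.isCompact_K m,
    Pool.Agent.K9h65.TU.measure_pos m,
    lt_of_le_of_lt (Pool.Agent.K9h65.TU.measure_K_le m) ENNReal.ofReal_lt_top,
    ⟨C, fun l w hl hw0 hw => ?_⟩, ⟨6 * C, H2⟩, fun s hs => ?_⟩
  · refine (H1 l w hl hw0 hw).trans (ENNReal.ofReal_le_ofReal ?_)
    have hlog := Pool.Agent.K9h65.TU.log_pos_of hw0 hw
    have hll : 0 < Real.log (1 + Real.log (1 / w)) := Real.log_pos (by linarith)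
    have h2 : 0 ≤ w ^ m * (Real.log (1 / w) / Real.log (1 + Real.log (1 / w))) := by positivity
    exact mul_le_mul_of_nonneg_left (mul_le_mul_of_nonneg_left (min_le_left _ _) h2) hC.le
  · have hδ : 0 < (m : ℝ) - s := by linarith
    have hD : (0 : ℝ) < ((m : ℝ) + 1) ^ m := by positivity
    refine ⟨6 * C / (m - s) + ((m : ℝ) + 1) ^ m * 2 ^ |s|, fun l w hl hw0 hor => ?_⟩
    have hws := Real.rpow_pos_of_pos hw0 s
    have hc1 : 0 < 6 * C / ((m : ℝ) - s) := by positivity
    have hc2 : (0 : ℝ) < ((m : ℝ) + 1) ^ m * 2 ^ |s| := by positivity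
    rcases le_or_gt w (1 / 2) with hw | hw
    · refine (H2 l w hl hw0 hw).trans (ENNReal.ofReal_le_ofReal ?_)
      have h1 : Real.log (1 / w) ≤ (1 / w) ^ ((m : ℝ) - s) / (m - s) :=
        Real.log_le_rpow_div (by positivity) hδ
      have h2 : (w ^ m : ℝ) * (1 / w) ^ ((m : ℝ) - s) = w ^ s := by
        rw [one_div, Real.inv_rpow hw0.le, ← Real.rpow_neg hw0.le, ← Real.rpow_natCast w m,
          ← Real.rpow_add hw0]
        congr 1
        ring
      calc 6 * C * (w ^ m * Real.log (1 / w))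
          ≤ 6 * C * (w ^ m * ((1 / w) ^ ((m : ℝ) - s) / (m - s))) := by
            apply mul_le_mul_of_nonneg_left _ (by positivity)
            exact mul_le_mul_of_nonneg_left h1 (by positivity)
        _ = 6 * C / (m - s) * w ^ s := by
            rw [← h2]
            ring
        _ ≤ (6 * C / (m - s) + ((m : ℝ) + 1) ^ m * 2 ^ |s|) * w ^ s :=
            mul_le_mul_of_nonneg_right (by linarith) hws.le
    · refine (measure_mono Set.inter_subset_left).trans
        ((Pool.Agent.K9h65.TU.measure_K_le m).trans (ENNReal.ofReal_le_ofReal ?_))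
      have h1 : (1 : ℝ) ≤ 2 ^ |s| * w ^ s := by
        rcases le_or_gt w 1 with hw1 | hw1
        · have h3 : (1 / 2 : ℝ) ^ |s| ≤ w ^ s := by
            calc (1 / 2 : ℝ) ^ |s| ≤ w ^ |s| :=
                  Real.rpow_le_rpow (by norm_num) hw.le (abs_nonneg s)
              _ ≤ w ^ s := Real.rpow_le_rpow_of_exponent_ge hw0 hw1 (le_abs_self s)
          calc (1 : ℝ) = 2 ^ |s| * (1 / 2 : ℝ) ^ |s| := by
                rw [← Real.mul_rpow (by norm_num) (by norm_num)]
                norm_num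
            _ ≤ 2 ^ |s| * w ^ s := mul_le_mul_of_nonneg_left h3 (by positivity)
        · have hs0 : 0 ≤ s := hor.resolve_left (not_le.mpr hw1)
          have h3 : 1 ≤ w ^ s := Real.one_le_rpow hw1.le hs0
          have h4 : (1 : ℝ) ≤ 2 ^ |s| := Real.one_le_rpow (by norm_num) (abs_nonneg s)
          nlinarith
      calc ((m : ℝ) + 1) ^ m = ((m : ℝ) + 1) ^ m * 1 := (mul_one _).symm
        _ ≤ ((m : ℝ) + 1) ^ m * (2 ^ |s| * w ^ s) := mul_le_mul_of_nonneg_left h1 hD.le
        _ ≤ (6 * C / (m - s) + ((m : ℝ) + 1) ^ m * 2 ^ |s|) * w ^ s := by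
            nlinarith [mul_pos hc1 hws]

end Pool.Agent.Results.MP_e5cefd_an.LogarithmicGauge
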